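import Pool.Agent.Lib.MP_6bd4d3_al.Card

/-!
The Schur multiplier of the prosolvable completion of a non-cyclic free group has at least
continuum many elements; in particular it is uncountable.
-/

namespace Pool.Agent.Lib.MP_6bd4d3_al.OldContinuum

open Pool.Agent.Lib.MP_6bd4d3_al

/-- The natural projection from `F / F^(n+1)` onto `F / F^(n)`. -/
def proj (F : Type) [Group F] (n : ℕ) :
    F ⧸ derivedSeries F (n + 1) →* F ⧸ derivedSeries F n :=
  QuotientGroup.map (derivedSeries F (n + 1)) (derivedSeries F n) (MonoidHom.id F)
    (derivedSeries_antitone F (Nat.le_succ n))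

/-- The prosolvable completion: the inverse limit of the groups `F / F^(n)` along the natural
projections, as an abstract group. -/
def completion (F : Type) [Group F] : Subgroup ((n : ℕ) → F ⧸ derivedSeries F n) where
  carrier := {x | ∀ n, proj F n (x (n + 1)) = x n}
  one_mem' := fun n => map_one (proj F n)
  mul_mem' := fun {x y} hx hy n => by
    rw [Pi.mul_apply, Pi.mul_apply, map_mul, hx n, hy n]
  inv_mem' := fun {x} hx n => by
    rw [Pi.inv_apply, Pi.inv_apply, map_inv, hx n]

theorem continuum_le (F : Type) [Group F] [IsFreeGroup F] (hF : ¬ IsCyclic F) :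
    Cardinal.continuum ≤
      Cardinal.mk (groupHomology (Rep.trivial ℤ (completion F) ℤ) 2) := by
  let e : F ≃* FreeGroup (IsFreeGroup.Generators F) := IsFreeGroup.toFreeGroup F
  have hα : Nontrivial (IsFreeGroup.Generators F) := by
    by_contra h
    rw [not_nontrivial_iff_subsingleton] at h
    apply hF
    have : IsCyclic (FreeGroup (IsFreeGroup.Generators F)) := by
      rcases isEmpty_or_nonempty (IsFreeGroup.Generators F) with h0 | ⟨⟨a⟩⟩
      · exact isCyclic_of_subsingleton
      · refine ⟨FreeGroup.of a, fun x => ?_⟩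
        have hx : x ∈ Subgroup.zpowers (FreeGroup.of a) := by
          induction x using FreeGroup.induction_on with
          | C1 => exact one_mem _
          | of b => rw [Subsingleton.elim b a]; exact Subgroup.mem_zpowers _
          | inv_of b hb => exact inv_mem hb
          | mul x y hx hy => exact mul_mem hx hy
        exact hx
    exact isCyclic_of_surjective e.symm e.symm.surjective
  let q : ∀ n, F ⧸ derivedSeries F n ≃*
      FreeGroup (IsFreeGroup.Generators F) ⧸ derivedSeries (FreeGroup (IsFreeGroup.Generators F)) n :=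
    fun n => QuotientGroup.congr _ _ e (map_derivedSeries_eq (f := e.toMonoidHom) e.surjective n)
  let Q := MulEquiv.piCongrRight q
  have hq : ∀ n (g : F), q n (g : F ⧸ derivedSeries F n) = (e g : _ ⧸ _) := fun n g => rfl
  have hp : ∀ n (g : F), proj F n (g : F ⧸ derivedSeries F (n + 1)) = (g : _ ⧸ _) :=
    fun n g => rfl
  have h1 := free_case _ hα ((completion F).map Q.toMonoidHom) (by
    ext x
    constructor
    · rintro ⟨y, hy, rfl⟩ n
      obtain ⟨g, hg⟩ := QuotientGroup.mk_surjective (y (n + 1))
      refine ⟨e g, ?_, ?_⟩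
      · change q (n + 1) (y (n + 1)) = _
        rw [← hg, hq]
      · change q n (y n) = _
        rw [← hy n, ← hg, hp, hq]
    · intro hx
      refine ⟨Q.symm x, fun n => ?_, Q.apply_symm_apply x⟩
      obtain ⟨g, h1, h2⟩ := hx n
      obtain ⟨g', rfl⟩ := e.surjective g
      change proj F n ((q (n + 1)).symm (x (n + 1))) = (q n).symm (x n)
      rw [h1, h2, ← hq, ← hq, MulEquiv.symm_apply_apply, MulEquiv.symm_apply_apply, hp])
  refine h1.trans (le_of_eq ?_)
  have i := groupHomology.mapIso (A := Rep.trivial ℤ (completion F) ℤ)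
    (B := Rep.trivial ℤ ((completion F).map Q.toMonoidHom) ℤ) (Q.subgroupMap (completion F))
    (LinearEquiv.refl ℤ ℤ) (fun g => rfl) 2
  exact (Cardinal.mk_congr i.toLinearEquiv.toEquiv).symm

end Pool.Agent.Lib.MP_6bd4d3_al.OldContinuum
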